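import Mathlib
import Pool.Agent.H925R3.RR.Stubs

/-! Task PRIM of project RR (helper925): primitive divisors. -/

namespace Pool.Agent.H479R2.RRPrim

open Pool.Agent.H925R3.RR

theorem ht_eq (q : ℚ) : ht q = Real.log q.den + Real.log (max 1 |((q : ℚ) : ℝ)|) := by
  have hd : (0 : ℝ) < q.den := by exact_mod_cast q.den_pos
  have h1 : (0 : ℝ) < max 1 |(q : ℝ)| := lt_of_lt_of_le one_pos (le_max_left _ _)
  unfold ht
  rw [← Real.log_mul hd.ne' h1.ne']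
  congr 1
  have h2 : (q : ℝ) = q.num / q.den := by
    exact_mod_cast (Rat.num_div_den q).symm
  rw [mul_max_of_nonneg _ _ hd.le, mul_one]
  have h3 : (q.den : ℝ) * |(q : ℝ)| = |(q.num : ℝ)| := by
    rw [h2, abs_div, abs_of_pos hd]
    field_simp
  rw [h3]
  push_cast
  rw [max_comm]

theorem log_den_le (q : ℚ) : Real.log q.den ≤ ht q := by
  rw [ht_eq]
  have := Real.log_nonneg (le_max_left (1 : ℝ) |((q : ℚ) : ℝ)|)
  linarith

theorem dvd_core {x : ℕ → ℚ} {h C K : ℝ} (H : XSeq x h C K) (S₀ : Finset ℕ) (h2 : 2 ∈ S₀)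
    (h3 : 3 ∈ S₀) {n n2 n3 : ℕ} (e2 : n = 2 * n2) (e3 : n = 3 * n3)
    (hn2 : 1 ≤ n2) (hn3 : 1 ≤ n3)
    (hno : ∀ p : ℕ, p.Prime → p ∉ S₀ → p ∣ (x n).den → p ∣ (x n2).den ∨ p ∣ (x n3).den) :
    (x n).den ∣ (x n2).den * (x n3).den * ∏ p ∈ S₀, p ^ padicValNat p (x n).den := by
  rw [Nat.dvd_iff_prime_pow_dvd_dvd]
  intro p k hp hk
  have hpf : Fact p.Prime := ⟨hp⟩
  have hkv : k ≤ padicValNat p (x n).den :=
    (padicValNat_dvd_iff_le (x n).den_nz).1 hk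
  by_cases hS : p ∈ S₀
  · exact dvd_mul_of_dvd_right ((pow_dvd_pow p hkv).trans
      (Finset.dvd_prod_of_mem (fun p => p ^ padicValNat p (x n).den) hS)) _
  · rcases Nat.eq_zero_or_pos k with hk0 | hk0
    · subst hk0; simp
    · have hp2 : p ≠ 2 := fun h => hS (h ▸ h2)
      have hp3 : p ≠ 3 := fun h => hS (h ▸ h3)
      have hpd : p ∣ (x n).den := (dvd_pow_self p hk0.ne').trans hk
      rcases hno p hp hS hpd with hd | hd
      · have h5 := H.two p hp hp2 n2 hn2 hd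
        rw [← e2] at h5
        rw [h5] at hkv
        have h6 : p ^ k ∣ (x n2).den := (padicValNat_dvd_iff_le (x n2).den_nz).2 hkv
        exact (h6.mul_right _).mul_right _
      · have h5 := H.three p hp hp2 hp3 n3 hn3 hd
        rw [← e3] at h5
        rw [h5] at hkv
        have h6 : p ^ k ∣ (x n3).den := (padicValNat_dvd_iff_le (x n3).den_nz).2 hkv
        exact (h6.mul_left _).mul_right _

theorem log_core {x : ℕ → ℚ} {h C K : ℝ} (H : XSeq x h C K) (S₀ : Finset ℕ) (h2 : 2 ∈ S₀)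
    (h3 : 3 ∈ S₀) (hS : ∀ p ∈ S₀, p.Prime) {n n2 n3 : ℕ} (e2 : n = 2 * n2) (e3 : n = 3 * n3)
    (hn2 : 1 ≤ n2) (hn3 : 1 ≤ n3)
    (hno : ∀ p : ℕ, p.Prime → p ∉ S₀ → p ∣ (x n).den → p ∣ (x n2).den ∨ p ∣ (x n3).den) :
    Real.log (x n).den ≤ Real.log (x n2).den + Real.log (x n3).den +
      ∑ p ∈ S₀, (padicValNat p (x n).den : ℝ) * Real.log p := by
  have h4 := dvd_core H S₀ h2 h3 e2 e3 hn2 hn3 hno
  have hpos : ∀ p ∈ S₀, 0 < p ^ padicValNat p (x n).den := fun p hp =>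
    pow_pos (hS p hp).pos _
  have hP : 0 < ∏ p ∈ S₀, p ^ padicValNat p (x n).den := Finset.prod_pos hpos
  have d2 := (x n2).den_pos
  have d3 := (x n3).den_pos
  have h5 := Nat.le_of_dvd (Nat.mul_pos (Nat.mul_pos d2 d3) hP) h4
  have h6 : ((x n).den : ℝ) ≤ (x n2).den * (x n3).den *
      ∏ p ∈ S₀, (p : ℝ) ^ padicValNat p (x n).den := by exact_mod_cast h5
  have d : (0 : ℝ) < (x n).den := by exact_mod_cast (x n).den_pos
  have d2' : (0 : ℝ) < (x n2).den := by exact_mod_cast d2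
  have d3' : (0 : ℝ) < (x n3).den := by exact_mod_cast d3
  have hpos' : ∀ p ∈ S₀, (0 : ℝ) < (p : ℝ) ^ padicValNat p (x n).den := fun p hp =>
    pow_pos (by exact_mod_cast (hS p hp).pos) _
  have hP' : 0 < ∏ p ∈ S₀, (p : ℝ) ^ padicValNat p (x n).den := Finset.prod_pos hpos'
  refine (Real.log_le_log d h6).trans (le_of_eq ?_)
  rw [Real.log_mul (by positivity) hP'.ne', Real.log_mul d2'.ne' d3'.ne',
    Real.log_prod (fun p hp => (hpos' p hp).ne')]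
  simp only [Real.log_pow]

theorem prim : PRIM := by
  intro x h C K H S₀ h2 h3 hS
  have hh := H.hpos
  have hcard : (0 : ℝ) ≤ S₀.card := Nat.cast_nonneg _
  refine ⟨h / (4 * ((S₀.card : ℝ) + 1)), by positivity, ⌈12 * C / h⌉₊ + 1, ?_⟩
  intro i j hi hj hn0 hre hpa
  by_contra hcon
  push Not at hcon
  set c : ℝ := h / (4 * ((S₀.card : ℝ) + 1)) with hc
  set n : ℕ := 2 ^ i * 3 ^ j with hn
  set n2 : ℕ := 2 ^ (i - 1) * 3 ^ j with hn2
  set n3 : ℕ := 2 ^ i * 3 ^ (j - 1) with hn3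
  have e2 : n = 2 * n2 := by
    obtain ⟨i', rfl⟩ : ∃ i', i = i' + 1 := ⟨i - 1, by omega⟩
    rw [hn, hn2, Nat.add_sub_cancel]; ring
  have e3 : n = 3 * n3 := by
    obtain ⟨j', rfl⟩ : ∃ j', j = j' + 1 := ⟨j - 1, by omega⟩
    rw [hn, hn3, Nat.add_sub_cancel]; ring
  have p2 : 1 ≤ n2 := Nat.pos_of_ne_zero (by rw [hn2]; positivity)
  have p3 : 1 ≤ n3 := Nat.pos_of_ne_zero (by rw [hn3]; positivity)
  have p1 : 1 ≤ n := by omega
  have hlog := log_core H S₀ h2 h3 hS e2 e3 p2 p3 (by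
    intro p hp hpS hpd
    by_contra hc2
    rw [not_or] at hc2
    exact hc2.2 (hcon p hp hpS hpd hc2.1))
  have hsum : ∑ p ∈ S₀, (padicValNat p (x n).den : ℝ) * Real.log p ≤
      S₀.card * (c * (n : ℝ) ^ 2) := by
    refine (Finset.sum_le_sum (fun p hp => (hpa p hp).le)).trans (le_of_eq ?_)
    rw [Finset.sum_const, nsmul_eq_mul]
  have b2 := (log_den_le (x n2)).trans (sub_le_iff_le_add.1 (abs_le.1 (H.height n2 p2)).2)
  have b3 := (log_den_le (x n3)).trans (sub_le_iff_le_add.1 (abs_le.1 (H.height n3 p3)).2)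
  have b1 := (abs_le.1 (H.height n p1)).1
  rw [ht_eq] at b1
  have r2 : (n : ℝ) = 2 * n2 := by rw [e2]; push_cast; ring
  have r3 : (n : ℝ) = 3 * n3 := by rw [e3]; push_cast; ring
  have q2 : h * (n2 : ℝ) ^ 2 = h * (n : ℝ) ^ 2 / 4 := by rw [r2]; ring
  have q3 : h * (n3 : ℝ) ^ 2 = h * (n : ℝ) ^ 2 / 9 := by rw [r3]; ring
  have hcc : ((S₀.card : ℝ) + 1) * (c * (n : ℝ) ^ 2) = h * (n : ℝ) ^ 2 / 4 := by
    rw [hc]; field_simp
  have hfin : h * (n : ℝ) ^ 2 * (14 / 36) < 3 * C := by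
    rw [q2] at b2
    rw [q3] at b3
    have : ((S₀.card : ℝ) + 1) * (c * (n : ℝ) ^ 2) =
      S₀.card * (c * (n : ℝ) ^ 2) + c * (n : ℝ) ^ 2 := by ring
    linarith
  have hnC : 12 * C / h < n := by
    have h1 : 12 * C / h ≤ (⌈12 * C / h⌉₊ : ℝ) := Nat.le_ceil _
    have h4 : ((⌈12 * C / h⌉₊ + 1 : ℕ) : ℝ) ≤ n := by exact_mod_cast hn0
    push_cast at h4
    linarith
  rw [div_lt_iff₀ hh] at hnC
  have hn1 : (1 : ℝ) ≤ n := by exact_mod_cast p1
  have h7 : h * n ≤ h * (n : ℝ) ^ 2 := mul_le_mul_of_nonneg_left (by nlinarith) hh.le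
  have h8 : 0 < h * n := by positivity
  linarith

end Pool.Agent.H479R2.RRPrim
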